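import Mathlib
import Pool.Agent.H529R3.Regressive
import Pool.Agent.Y911.DR.Sharp

set_option autoImplicit false

/-!
# Large monochromatic sets for regressive colourings of pairs of branches
-/

open Cardinal Set

namespace Pool.Agent.Y364.RG

universe u

open Pool.Agent.H529R3 (Branch Delta DeltaRegressive)

variable {κ : Cardinal.{u}}

/-- Move a branch one step up, with first value `false`. -/
noncomputable def shift (x : Branch κ) : Branch κ := fun i => by
  classical
  exact if i.1 = 0 then false else x ⟨i.1 - 1, lt_of_le_of_lt (Ordinal.sub_le_self _ _) i.2⟩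

theorem shift_zero (h0 : (0 : Ordinal.{u}) < κ.ord) (x : Branch κ) :
    shift x ⟨0, h0⟩ = false := by
  unfold shift
  simp

theorem shift_one_add (x : Branch κ) (j : Ordinal.{u}) (hj : j < κ.ord) (h1 : 1 + j < κ.ord) :
    shift x ⟨1 + j, h1⟩ = x ⟨j, hj⟩ := by
  unfold shift
  have h2 : (1 + j) ≠ 0 := by
    intro h
    have : (1 : Ordinal.{u}) ≤ 0 := h ▸ le_self_add
    exact absurd this (by simp)
  have h3 : (1 + j) - 1 = j := Ordinal.add_sub_cancel 1 j
  rw [if_neg h2]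
  congr 1
  exact Subtype.ext h3

theorem shift_spec (hκ : ℵ₀ ≤ κ) {x y : Branch κ} (hxy : x ≠ y) :
    shift x ≠ shift y ∧ Delta (shift x) (shift y) ≤ 1 + Delta x y ∧
      0 < Delta (shift x) (shift y) := by
  obtain ⟨h1, h2⟩ := Pool.Agent.H529R3.Delta_spec hxy
  have h3 : 1 + Delta x y < κ.ord := Pool.Agent.H529R3.one_add_lt hκ h1
  have h4 : shift x ⟨1 + Delta x y, h3⟩ ≠ shift y ⟨1 + Delta x y, h3⟩ := by
    rw [shift_one_add x _ h1 h3, shift_one_add y _ h1 h3]
    exact h2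
  have hne : shift x ≠ shift y := fun h => h4 (by rw [h])
  refine ⟨hne, Pool.Agent.H529R3.Delta_le_of_ne h3 h4, ?_⟩
  by_contra h5
  have h6 : Delta (shift x) (shift y) = 0 := le_antisymm (not_lt.mp h5) zero_le
  obtain ⟨h7, h8⟩ := Pool.Agent.H529R3.Delta_spec hne
  have h0 : (0 : Ordinal.{u}) < κ.ord := (zero_le).trans_lt h1
  have h9 : (⟨Delta (shift x) (shift y), h7⟩ : Iio κ.ord) = ⟨0, h0⟩ := Subtype.ext h6
  rw [h9, shift_zero, shift_zero] at h8
  exact h8 rfl

theorem shift_injective (hκ : ℵ₀ ≤ κ) : Function.Injective (shift (κ := κ)) := by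
  intro x y hxy
  by_contra hne
  exact (shift_spec hκ hne).1 hxy

/-- Finitely many regressive colourings have a common monochromatic set with more than `θ`
elements, if `2 ^ θ < 2 ^ κ`. -/
theorem large {θ : Cardinal.{u}} (hθ : ℵ₀ ≤ θ)
    (hpow : (2 : Cardinal.{u}) ^ θ < (2 : Cardinal.{u}) ^ κ) (n : ℕ)
    (c : Fin n → Branch κ → Branch κ → Ordinal.{u}) (hc : ∀ i, DeltaRegressive κ (c i)) :
    ∃ Y : Set (Branch κ), Cardinal.lift.{u + 1} θ < #Y ∧
      ∀ i, ∃ ν : Ordinal.{u}, ∀ x ∈ Y, ∀ y ∈ Y, x ≠ y → c i x y = ν := by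
  classical
  have hκ : ℵ₀ ≤ κ := by
    have h1 : Pool.Agent.Y911.DR.least θ ≤ κ := Pool.Agent.Y911.DR.least_le hpow
    exact hθ.trans ((Pool.Agent.Y911.DR.lt_least θ).le.trans h1)
  let c' : Fin (n + 1) → Branch κ → Branch κ → Ordinal.{u} :=
    Fin.cons (fun _ _ => 0) (fun i x y => c i (shift x) (shift y))
  have hω : Ordinal.omega0 < (Pool.Agent.Y911.DR.least θ).ord := by
    rw [← Cardinal.ord_aleph0]
    exact Cardinal.ord_lt_ord.mpr (hθ.trans_lt (Pool.Agent.Y911.DR.lt_least θ))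
  obtain ⟨Y, hY, hmono⟩ := Pool.Agent.Y911.DR.main hθ hpow n c' (by
      intro k
      refine Fin.cases ?_ (fun i => ?_) k
      · intro x y; rfl
      · intro x y; exact (hc i).1 _ _) Ordinal.omega0 hω (by
      intro k
      refine Fin.cases ?_ (fun i => ?_) k
      · intro x y _
        exact lt_max_of_lt_right Ordinal.omega0_pos
      · intro x y hxy
        obtain ⟨h1, h2, h3⟩ := shift_spec hκ hxy
        refine ((hc i).2.2 _ _ h1 h3).trans_le (h2.trans ?_)
        have h4 : (1 : Ordinal.{u}) + max (Delta x y) Ordinal.omega0 =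
            max (Delta x y) Ordinal.omega0 :=
          Ordinal.one_add_of_omega0_le (le_max_right _ _)
        change 1 + Delta x y ≤ max (Delta x y) Ordinal.omega0
        rw [← h4]
        exact add_le_add_right (le_max_left _ _) 1)
  refine ⟨shift '' Y, ?_, fun i => ?_⟩
  · rw [Cardinal.mk_image_eq (shift_injective hκ)]
    exact hY
  · obtain ⟨ν, hν⟩ := hmono i.succ
    refine ⟨ν, ?_⟩
    rintro _ ⟨x, hx, rfl⟩ _ ⟨y, hy, rfl⟩ hne
    exact hν x hx y hy (fun h => hne (by rw [h]))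

/-- The first difference is at least two when the first two values agree. -/
theorem two_le_Delta (hκ : ℵ₀ < κ) {x y : Branch κ} (hxy : x ≠ y)
    (h0 : Pool.Agent.H529R3.nv hκ x 0 = Pool.Agent.H529R3.nv hκ y 0)
    (h1 : Pool.Agent.H529R3.nv hκ x 1 = Pool.Agent.H529R3.nv hκ y 1) : 2 ≤ Delta x y := by
  by_contra hcon
  push Not at hcon
  obtain ⟨m, hm⟩ := Ordinal.lt_omega0.mp (hcon.trans (by
    exact_mod_cast Ordinal.natCast_lt_omega0 2))
  rw [hm] at hcon
  have h2 : m < 2 := by exact_mod_cast hcon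
  have h3 := Pool.Agent.H529R3.nv_ne_of_eq hκ hxy hm
  interval_cases m
  · exact h3 h0
  · exact h3 h1

/-- If `2 ^ θ = 2 ^ κ`, or `κ ≤ θ`, some regressive colouring has only monochromatic sets with at
most `θ` elements. -/
theorem small (hκ : ℵ₀ < κ) {θ : Cardinal.{u}} (hθ : ℵ₀ ≤ θ)
    (hpow : (2 : Cardinal.{u}) ^ κ ≤ (2 : Cardinal.{u}) ^ θ) :
    ∃ c : Branch κ → Branch κ → Ordinal.{u}, DeltaRegressive κ c ∧
      ∀ (Y : Set (Branch κ)) (ν : Ordinal.{u}), (∀ x ∈ Y, ∀ y ∈ Y, x ≠ y → c x y = ν) →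
        #Y ≤ Cardinal.lift.{u + 1} θ := by
  classical
  have mk_branch : ∀ ρ : Cardinal.{u}, #(Branch ρ) =
      Cardinal.lift.{u + 1} ((2 : Cardinal.{u}) ^ ρ) := by
    intro ρ
    rw [Branch, Cardinal.mk_arrow, Cardinal.mk_Iio_ordinal, Cardinal.card_ord, Cardinal.mk_bool]
    simp
  have hcard : #(Branch κ) ≤ #(Branch θ) := by
    rw [mk_branch, mk_branch, Cardinal.lift_le]
    exact hpow
  obtain ⟨f⟩ := hcard
  obtain ⟨S, hS1, hS2, hS3⟩ := Pool.Agent.Y911.DR.sierpinski θ hθ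
  have h2κ : (2 : Ordinal.{u}) < κ.ord := by
    have := Pool.Agent.H529R3.nat_lt_ord hκ 2
    exact_mod_cast this
  refine ⟨fun x y => if Delta x y < 2 then 0 else S (f x) (f y), ⟨?_, ?_, ?_⟩, ?_⟩
  · intro x y
    simp only [Pool.Agent.H529R3.Delta_symm x y, hS1 (f x) (f y)]
  · intro x y _
    simp only
    split_ifs
    · exact zero_lt_two.trans h2κ
    · exact (hS2 _ _).trans h2κ
  · intro x y _ hpos
    simp only
    split_ifs with h
    · exact hpos
    · exact (hS2 _ _).trans_le (not_lt.mp h)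
  · intro Y ν hY
    have hpiece : ∀ p : Bool × Bool, #{x // x ∈ Y ∧ (Pool.Agent.H529R3.nv hκ x 0,
        Pool.Agent.H529R3.nv hκ x 1) = p} ≤ Cardinal.lift.{u + 1} θ := by
      intro p
      have h1 := hS3 (f '' {x | x ∈ Y ∧ (Pool.Agent.H529R3.nv hκ x 0,
        Pool.Agent.H529R3.nv hκ x 1) = p}) ν (by
          rintro _ ⟨x, ⟨hx, hxp⟩, rfl⟩ _ ⟨y, ⟨hy, hyp⟩, rfl⟩ hne
          have hxy : x ≠ y := fun h => hne (by rw [h])
          have h2 := hY x hx y hy hxy
          have h3 := hxp.trans hyp.symm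
          have h4 := two_le_Delta hκ hxy (congrArg Prod.fst h3) (congrArg Prod.snd h3)
          simp only [if_neg (not_lt.mpr h4)] at h2
          exact h2)
      rw [Cardinal.mk_image_eq f.injective] at h1
      exact h1
    have hsub : Y ⊆ ⋃ p : ULift.{u + 1} (Bool × Bool), {x | x ∈ Y ∧
        (Pool.Agent.H529R3.nv hκ x 0, Pool.Agent.H529R3.nv hκ x 1) = p.down} := by
      intro x hx
      exact mem_iUnion.mpr ⟨⟨_⟩, hx, rfl⟩
    have hθ' : ℵ₀ ≤ Cardinal.lift.{u + 1} θ := by simpa using hθ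
    refine (Cardinal.mk_le_mk_of_subset hsub).trans ?_
    refine (Cardinal.mk_iUnion_le_sum_mk).trans ?_
    refine (Cardinal.sum_le_sum _
      (fun _ : ULift.{u + 1} (Bool × Bool) => Cardinal.lift.{u + 1} θ)
      fun p : ULift.{u + 1} (Bool × Bool) => hpiece p.down).trans ?_
    rw [Cardinal.sum_const']
    refine (mul_le_mul' (?_ : _ ≤ Cardinal.lift.{u + 1} θ) le_rfl).trans
      (Cardinal.mul_eq_self hθ').le
    exact (Cardinal.lt_aleph0_of_finite _).le.trans hθ'

end Pool.Agent.Y364.RG
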