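import Mathlib
import Pool.Agent.Y364.RG.Large

set_option autoImplicit false

/-!
# Families of regressive colourings without common monochromatic triple
-/

open Cardinal Set

namespace Pool.Agent.Y364.RG

universe u

open Pool.Agent.H529R3 (Branch Delta DeltaRegressive)

variable {κ : Cardinal.{u}}

/-- Three branches do not have the same three first differences. -/
theorem triple {x y z : Branch κ} (hxy : x ≠ y) (hxz : x ≠ z) (hyz : y ≠ z)
    (h1 : Delta x y = Delta x z) (h2 : Delta x y = Delta y z) : False :=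
  Pool.Agent.Y911.DR.delta_triple hxy hxz hyz h1 h2

theorem tri (x y : Branch κ) : Delta x y = 0 ∨
    (∃ n : ℕ, Delta x y = ((n + 1 : ℕ) : Ordinal.{u})) ∨ Ordinal.omega0 ≤ Delta x y := by
  rcases lt_or_ge (Delta x y) Ordinal.omega0 with h1 | h1
  · obtain ⟨n, hn⟩ := Ordinal.lt_omega0.mp h1
    rcases n with _ | n
    · left; rw [hn]; simp
    · right; left; exact ⟨n, hn⟩
  · right; right; exact h1

/-- If `2 ^ κ = 2 ^ ℵ₀`, two regressive colourings may have no common monochromatic triple. -/
theorem pair (hκ : ℵ₀ < κ) (h : (2 : Cardinal.{u}) ^ κ ≤ (2 : Cardinal.{u}) ^ ℵ₀) :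
    ∃ c c' : Branch κ → Branch κ → Ordinal.{u}, DeltaRegressive κ c ∧ DeltaRegressive κ c' ∧
      ¬ ∃ x y z : Branch κ, x ≠ y ∧ x ≠ z ∧ y ≠ z ∧ c x y = c x z ∧ c x y = c y z ∧
        c' x y = c' x z ∧ c' x y = c' y z := by
  classical
  obtain ⟨r, hr⟩ := Pool.Agent.H529R3.exists_embedding h
  let c : ℕ → Branch κ → Branch κ → Ordinal.{u} := fun k x y =>
    if Delta x y = 0 then Ordinal.omega0
    else if Delta x y < Ordinal.omega0 then Delta x y - 1
    else ((Pool.Agent.H529R3.fd (r x) (r y) + k : ℕ) : Ordinal.{u})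
  have hc0 : ∀ k x y, Delta x y = 0 → c k x y = Ordinal.omega0 := fun k x y h0 => if_pos h0
  have hc1 : ∀ k x y (n : ℕ), Delta x y = ((n + 1 : ℕ) : Ordinal.{u}) →
      c k x y = (n : Ordinal.{u}) := by
    intro k x y n hn
    have h1 : Delta x y ≠ 0 := by
      rw [hn]
      exact_mod_cast Nat.succ_ne_zero n
    have h2 : Delta x y < Ordinal.omega0 := by
      rw [hn]
      exact Ordinal.natCast_lt_omega0 _
    have h3 : c k x y = Delta x y - 1 := by
      simp only [c, if_neg h1, if_pos h2]
    rw [h3, hn]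
    have h4 : ((n + 1 : ℕ) : Ordinal.{u}) = 1 + (n : Ordinal.{u}) := by
      rw [add_comm n 1]
      push_cast
      rfl
    rw [h4]
    exact Ordinal.add_sub_cancel 1 _
  have hc2 : ∀ k x y, Ordinal.omega0 ≤ Delta x y →
      c k x y = ((Pool.Agent.H529R3.fd (r x) (r y) + k : ℕ) : Ordinal.{u}) := by
    intro k x y h1
    have h2 : Delta x y ≠ 0 := by
      intro h2
      rw [h2] at h1
      exact absurd h1 (not_le.mpr Ordinal.omega0_pos)
    simp only [c, if_neg h2, if_neg (not_lt.mpr h1)]
  have hreg : ∀ k, DeltaRegressive κ (c k) := by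
    intro k
    refine ⟨?_, ?_, ?_⟩
    · intro x y
      simp only [c, Pool.Agent.H529R3.Delta_symm x y, Pool.Agent.H529R3.fd_symm (r x) (r y)]
    · intro x y hxy
      rcases tri x y with h1 | ⟨n, h1⟩ | h1
      · rw [hc0 k x y h1]; exact Pool.Agent.H529R3.omega_lt_ord hκ
      · rw [hc1 k x y n h1]; exact Pool.Agent.H529R3.nat_lt_ord hκ n
      · rw [hc2 k x y h1]; exact Pool.Agent.H529R3.nat_lt_ord hκ _
    · intro x y hxy hpos
      rcases tri x y with h1 | ⟨n, h1⟩ | h1
      · exact absurd h1 hpos.ne'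
      · rw [hc1 k x y n h1, h1]
        exact_mod_cast Nat.lt_succ_self n
      · rw [hc2 k x y h1]
        exact (Ordinal.natCast_lt_omega0 _).trans_le h1
  -- the two colours agree exactly on pairs with finite first difference
  have hag : ∀ x y, (c 0 x y = c 1 x y ↔ Delta x y < Ordinal.omega0) := by
    intro x y
    rcases tri x y with h1 | ⟨n, h1⟩ | h1
    · rw [hc0 0 x y h1, hc0 1 x y h1, h1]
      exact ⟨fun _ => Ordinal.omega0_pos, fun _ => rfl⟩
    · rw [hc1 0 x y n h1, hc1 1 x y n h1, h1]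
      exact ⟨fun _ => Ordinal.natCast_lt_omega0 _, fun _ => rfl⟩
    · rw [hc2 0 x y h1, hc2 1 x y h1]
      refine ⟨fun h2 => ?_, fun h2 => absurd h1 (not_le.mpr h2)⟩
      have h3 : Pool.Agent.H529R3.fd (r x) (r y) + 0 = Pool.Agent.H529R3.fd (r x) (r y) + 1 := by
        exact_mod_cast h2
      omega
  have hfin : ∀ x y x' y', Delta x y < Ordinal.omega0 → Delta x' y' < Ordinal.omega0 →
      c 0 x y = c 0 x' y' → Delta x y = Delta x' y' := by
    intro x y x' y' h1 h2 h3
    rcases tri x y with h4 | ⟨n, h4⟩ | h4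
    · rcases tri x' y' with h5 | ⟨m, h5⟩ | h5
      · rw [h4, h5]
      · rw [hc0 0 x y h4, hc1 0 x' y' m h5] at h3
        exact absurd h3 (Ordinal.natCast_lt_omega0 m).ne'
      · exact absurd h5 (not_le.mpr h2)
    · rcases tri x' y' with h5 | ⟨m, h5⟩ | h5
      · rw [hc1 0 x y n h4, hc0 0 x' y' h5] at h3
        exact absurd h3 (Ordinal.natCast_lt_omega0 n).ne
      · rw [hc1 0 x y n h4, hc1 0 x' y' m h5] at h3
        have h6 : n = m := by exact_mod_cast h3
        rw [h4, h5, h6]
      · exact absurd h5 (not_le.mpr h2)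
    · exact absurd h4 (not_le.mpr h1)
  refine ⟨c 0, c 1, hreg 0, hreg 1, ?_⟩
  rintro ⟨x, y, z, hxy, hxz, hyz, h1, h2, h3, h4⟩
  rcases lt_or_ge (Delta x y) Ordinal.omega0 with h5 | h5
  · have h6 := (hag x y).mpr h5
    have h7 : Delta x z < Ordinal.omega0 := (hag x z).mp (by rw [← h1, ← h3, h6])
    have h8 : Delta y z < Ordinal.omega0 := (hag y z).mp (by rw [← h2, ← h4, h6])
    exact triple hxy hxz hyz (hfin _ _ _ _ h5 h7 h1) (hfin _ _ _ _ h5 h8 h2)
  · have h6 : ¬ c 0 x y = c 1 x y := fun h => absurd h5 (not_le.mpr ((hag x y).mp h))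
    have h7 : Ordinal.omega0 ≤ Delta x z := by
      by_contra h
      exact h6 (by rw [h1, h3]; exact (hag x z).mpr (not_le.mp h))
    have h8 : Ordinal.omega0 ≤ Delta y z := by
      by_contra h
      exact h6 (by rw [h2, h4]; exact (hag y z).mpr (not_le.mp h))
    rw [hc2 0 x y h5] at h1 h2
    rw [hc2 0 x z h7] at h1
    rw [hc2 0 y z h8] at h2
    have e1 : Pool.Agent.H529R3.fd (r x) (r y) = Pool.Agent.H529R3.fd (r x) (r z) := by
      have : Pool.Agent.H529R3.fd (r x) (r y) + 0 = Pool.Agent.H529R3.fd (r x) (r z) + 0 := by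
        exact_mod_cast h1
      omega
    have e2 : Pool.Agent.H529R3.fd (r x) (r y) = Pool.Agent.H529R3.fd (r y) (r z) := by
      have : Pool.Agent.H529R3.fd (r x) (r y) + 0 = Pool.Agent.H529R3.fd (r y) (r z) + 0 := by
        exact_mod_cast h2
      omega
    have f1 := Pool.Agent.H529R3.fd_spec (fun h => hxy (hr h))
    have f2 := Pool.Agent.H529R3.fd_spec (fun h => hxz (hr h))
    have f3 := Pool.Agent.H529R3.fd_spec (fun h => hyz (hr h))
    rw [← e1] at f2
    rw [← e2] at f3
    revert f1 f2 f3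
    cases r x (Pool.Agent.H529R3.fd (r x) (r y)) <;>
      cases r y (Pool.Agent.H529R3.fd (r x) (r y)) <;>
      cases r z (Pool.Agent.H529R3.fd (r x) (r y)) <;> simp

/-- If `κ ≤ 2 ^ λ`, some `λ` regressive colourings have no common monochromatic triple. -/
theorem family (hκ : ℵ₀ < κ) (L : Type u) (hL : κ ≤ 2 ^ #L) :
    ∃ c : L → Branch κ → Branch κ → Ordinal.{u}, (∀ i, DeltaRegressive κ (c i)) ∧
      ¬ ∃ x y z : Branch κ, x ≠ y ∧ x ≠ z ∧ y ≠ z ∧
        ∀ i, c i x y = c i x z ∧ c i x y = c i y z := by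
  classical
  have hinf : ℵ₀ ≤ #L := by
    by_contra hcon
    have h1 : (2 : Cardinal.{u}) ^ #L < ℵ₀ :=
      Cardinal.power_lt_aleph0 (Cardinal.natCast_lt_aleph0 (n := 2)) (not_le.mp hcon)
    exact absurd (hκ.trans_le hL) (not_lt.mpr h1.le)
  have h1 : #(Option L) = #L := by
    rw [Cardinal.mk_option, Cardinal.add_one_eq hinf]
  obtain ⟨e⟩ := Cardinal.eq.mp h1
  obtain ⟨B, hB1, hB2, hB3⟩ := Pool.Agent.Y911.DR.bits κ L hL
  have h2κ : (2 : Ordinal.{u}) < κ.ord := by
    have := Pool.Agent.H529R3.nat_lt_ord hκ 2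
    exact_mod_cast this
  let c : Option L → Branch κ → Branch κ → Ordinal.{u} := fun o x y =>
    if Delta x y = 0 then 2 else if Delta x y < 2 then 0 else
      match o with
      | none => 1
      | some i => B i x y
  have hreg : ∀ o, DeltaRegressive κ (c o) := by
    intro o
    refine ⟨?_, ?_, ?_⟩
    · intro x y
      rcases o with _ | i
      · simp only [c, Pool.Agent.H529R3.Delta_symm x y]
      · simp only [c, Pool.Agent.H529R3.Delta_symm x y, hB1 i x y]
    · intro x y _
      simp only [c]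
      split_ifs
      · exact h2κ
      · exact zero_lt_two.trans h2κ
      · rcases o with _ | i
        · exact one_lt_two.trans h2κ
        · exact (hB2 i x y).trans h2κ
    · intro x y _ hpos
      simp only [c]
      split_ifs with h h'
      · exact absurd h hpos.ne'
      · exact hpos
      · rcases o with _ | i
        · exact one_lt_two.trans_le (not_lt.mp h')
        · exact (hB2 i x y).trans_le (not_lt.mp h')
  have h12 : ∀ x y : Branch κ, Delta x y ≠ 0 → Delta x y < 2 → Delta x y = 1 := by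
    intro x y h1 h2
    obtain ⟨m, hm⟩ := Ordinal.lt_omega0.mp (h2.trans (by
      exact_mod_cast Ordinal.natCast_lt_omega0 2))
    rw [hm] at h1 h2 ⊢
    have h3 : m ≠ 0 := by exact_mod_cast h1
    have h4 : m < 2 := by exact_mod_cast h2
    have : m = 1 := by omega
    rw [this]; simp
  refine ⟨fun i => c (e.symm i), fun i => hreg _, ?_⟩
  rintro ⟨x, y, z, hxy, hxz, hyz, h⟩
  have h' : ∀ o, c o x y = c o x z ∧ c o x y = c o y z := by
    intro o
    have := h (e o)
    simpa using this
  -- the extra colouring separates first difference `0`, `1` and the rest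
  have hsep : ∀ x y x' y' : Branch κ, c none x y = c none x' y' →
      (Delta x y = Delta x' y') ∨ (2 ≤ Delta x y ∧ 2 ≤ Delta x' y') := by
    intro x y x' y' hh
    simp only [c] at hh
    split_ifs at hh with g1 g2 g3 g4 g5 g6 g7 g8
    · exact Or.inl (g1.trans g2.symm)
    · exact absurd hh two_ne_zero
    · exact absurd hh one_lt_two.ne'
    · exact absurd hh two_ne_zero.symm
    · exact Or.inl ((h12 x y g1 g4).trans (h12 x' y' g5 g6).symm)
    · exact absurd hh zero_ne_one
    · exact absurd hh one_lt_two.ne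
    · exact absurd hh one_ne_zero
    · exact Or.inr ⟨not_lt.mp g4, not_lt.mp g8⟩
  have s1 := hsep x y x z (h' none).1
  have s2 := hsep x y y z (h' none).2
  by_cases h2 : 2 ≤ Delta x y
  · have e1 : 2 ≤ Delta x z := by
      rcases s1 with h3 | h3
      · rw [← h3]; exact h2
      · exact h3.2
    have e2 : 2 ≤ Delta y z := by
      rcases s2 with h3 | h3
      · rw [← h3]; exact h2
      · exact h3.2
    refine hB3 ⟨x, y, z, hxy, hxz, hyz, fun i => ?_⟩
    have h3 := h' (some i)
    have p0 : ∀ {a b : Branch κ}, 2 ≤ Delta a b → Delta a b ≠ 0 := by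
      intro a b hab h0
      rw [h0] at hab
      exact absurd hab (not_le.mpr zero_lt_two)
    simp only [c, if_neg (p0 h2), if_neg (p0 e1), if_neg (p0 e2), if_neg (not_lt.mpr h2),
      if_neg (not_lt.mpr e1), if_neg (not_lt.mpr e2)] at h3
    exact h3
  · refine triple hxy hxz hyz ?_ ?_
    · rcases s1 with h3 | h3
      · exact h3
      · exact absurd h3.1 h2
    · rcases s2 with h3 | h3
      · exact h3
      · exact absurd h3.1 h2

end Pool.Agent.Y364.RG
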